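import Pool.Agent.H70.EP.Targets

/-!
# EX3: finitely many instances, with P = NP
-/

set_option autoImplicit false

namespace Pool.Agent.H70.EP

open Finset Pool.Agent.H6.NB Pool.Agent.H70.OQ Pool.Agent.H70.EH Pool.Agent.H70.EI

theorem card_VV (q : ℕ) : (Fintype.card (VV q) : ℝ) = 2 * 2 ^ q := by
  rw [Fintype.card_prod, Fintype.card_bool, Fintype.card_fun, Fintype.card_bool, Fintype.card_fin]
  push_cast
  ring

theorem lam_tau (r q : ℕ) (m : ℝ) :
    (128 * ((4 ^ r : ℕ) : ℝ)) ^ (2 * (2 * r + 1 + 1)) * (((4 ^ r : ℕ) : ℝ) ^ 2 * m +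
      (2 * 2 ^ q) ^ 2 * (((2 ^ 2 ^ r : ℕ) : ℝ) + 1) ^ (2 * r + 1 + 1) / 2 ^ 4 ^ r) =
    Lam r * m + Tau r q := by
  unfold Lam Tau
  rw [Nat.cast_pow, Nat.cast_pow, Nat.cast_ofNat, Nat.cast_ofNat, mul_add, mul_assoc]

theorem Lam_nonneg (r : ℕ) : 0 ≤ Lam r := by unfold Lam; positivity

theorem Tau_nonneg (r q : ℕ) : 0 ≤ Tau r q := by unfold Tau; positivity

open Classical in
theorem ast_core (h1 : Pool.Agent.H70.EH.T_RIN) (h2 : Pool.Agent.H70.EH.T_RL2)
    (h7 : T_NU3) (h8 : Pool.Agent.H6.NB.T_CLR) (r l q : ℕ) (hq : q = 10 * l + 100) (hr20 : 20 ≤ r)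
    (hl1 : 16 * r ^ 3 ≤ l) (hl2 : l ≤ 16 * (r + 1) ^ 3) (b : Bool)
    (B : ((Fin (2 * l) → Bool) → VV q → Bool) → Bool)
    (hB : ∀ P' u, Cl (VV q) (2 ^ 2 ^ r) (2 * r + 2) fun c => B (Function.update P' u c)) :
    (1 - 2 ^ (2 * l) * (Lam r / √(2 ^ q))) *
      ∑ c : (Fin (2 * l) → Bool) → VV q → Bool, (∏ u, mv false q (c u)) *
        (if B c = true then (1 : ℝ) else 0) -
      (2 ^ (2 * l) * (Tau r q + 1 / 2 ^ 2 ^ (q - 2)) +
        Real.exp (-(2 ^ (2 * l) * eps2 q ^ 2 / 64))) ≤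
    ∑ c : (Fin (2 * l) → Bool) → VV q → Bool, (if Says q b c then ∏ u, mv b q (c u) else 0) *
        (if B c = true then (1 : ℝ) else 0) := by
  have hnum := h7 r l hr20 hl1 hl2
  have hq10 : 100 ≤ q := by rw [hq]; omega
  have hcard : (Fintype.card (Fin (2 * l) → Bool) : ℝ) = 2 ^ (2 * l) := by
    rw [Fintype.card_fun, Fintype.card_bool, Fintype.card_fin]; push_cast; ring
  let F : ((Fin (2 * l) → Bool) → VV q → Bool) → ℝ := fun c => if B c = true then 1 else 0
  have hL12 : ∀ (P' : (Fin (2 * l) → Bool) → VV q → Bool) u ρ',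
      L12 (rst ρ' fun c => F (Function.update P' u c)) ≤
        Lam r * mn (rst ρ' fun c => F (Function.update P' u c)) + Tau r q := by
    intro P' u ρ'
    have hcl' := h8 _ _ _ _ ρ' (hB P' u)
    have hrl := h2 (VV q) (2 ^ 2 ^ r) (2 * r + 1) (4 ^ r) _
      (Nat.one_le_pow _ _ (by norm_num)) hcl'
    rw [card_VV, lam_tau] at hrl
    exact hrl
  have hLq : Lam r ≤ √(2 ^ q) := by rw [hq]; exact hnum.1
  have hrin := h1 (Fin (2 * l) → Bool) q F (Lam r) (Tau r q) b hq10 (Lam_nonneg r) hLq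
    (Tau_nonneg r q)
    (fun c => by
      simp only [F]
      split_ifs
      · exact ⟨zero_le_one, le_rfl⟩
      · exact ⟨le_rfl, zero_le_one⟩) hL12
  rw [hcard] at hrin
  exact hrin

/-- The relative error. -/
noncomputable def ep (V : ℕ → ATM) (p : ℕ × List Bool) : ℝ :=
  2 ^ (2 * (hm V p).length) * (Lam (sk V p) / √(2 ^ (qs (hm V p))))

/-- The absolute error. -/
noncomputable def ta (V : ℕ → ATM) (p : ℕ × List Bool) : ℝ :=
  2 ^ (2 * (hm V p).length) * (Tau (sk V p) (qs (hm V p)) + 1 / 2 ^ 2 ^ (qs (hm V p) - 2)) +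
    Real.exp (-(2 ^ (2 * (hm V p).length) * eps2 (qs (hm V p)) ^ 2 / 64))

theorem ep_nonneg (V : ℕ → ATM) (p : ℕ × List Bool) : 0 ≤ ep V p :=
  mul_nonneg (by positivity) (div_nonneg (Lam_nonneg _) (Real.sqrt_nonneg _))

theorem ta_nonneg (V : ℕ → ATM) (p : ℕ × List Bool) : 0 ≤ ta V p :=
  add_nonneg (mul_nonneg (by positivity) (add_nonneg (Tau_nonneg _ _) (by positivity)))
    (Real.exp_nonneg _)

theorem ex3 (h1 : Pool.Agent.H70.EI.T_FX2) (h2 : Pool.Agent.H70.EH.T_RIN)
    (h3 : Pool.Agent.H70.EH.T_RL2) (h4 : T_AC3) (h5 : Pool.Agent.H70.EI.T_CNJ) (h6 : T_CN3)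
    (h7 : Pool.Agent.H70.EI.T_GEO) (h8 : T_NU3) (h9 : Pool.Agent.H70.EI.T_HMX)
    (h10 : Pool.Agent.H70.EH.T_MUV) (h11 : Pool.Agent.H6.NB.T_CLR) (h12 : T_IS3) : T_EX3 := by
  classical
  intro V prog hprog E
  obtain ⟨O, hO⟩ := h12 V prog hprog E
  have hx : ∀ p, 20 ≤ sk V p ∧ 16 * sk V p ^ 3 ≤ (hm V p).length ∧
      (hm V p).length ≤ 16 * (sk V p + 1) ^ 3 := fun p => h9.2.2 V (fun a => a) p
  let M := E.card
  let ord : {a // a ∈ E} → ℕ := fun i => sk V i.1 * (M + 1) + (E.equivFin i).1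
  have hidx : ∀ i : {a // a ∈ E}, (E.equivFin i).1 < M + 1 := fun i =>
    Nat.lt_succ_of_lt (E.equivFin i).2
  have hord : Function.Injective ord := by
    intro i j hij
    have e1 : ord i % (M + 1) = (E.equivFin i).1 := by
      simp only [ord]
      rw [Nat.mul_comm, Nat.mul_add_mod, Nat.mod_eq_of_lt (hidx i)]
    have e2 : ord j % (M + 1) = (E.equivFin j).1 := by
      simp only [ord]
      rw [Nat.mul_comm, Nat.mul_add_mod, Nat.mod_eq_of_lt (hidx j)]
    rw [hij, e2] at e1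
    exact (E.equivFin.injective (Fin.ext e1)).symm
  have hkey : ∀ i j, ord i ≤ ord j → sk V i.1 ≤ sk V j.1 := by
    intro i j hij
    by_contra hlt
    have hlt' : sk V j.1 + 1 ≤ sk V i.1 := by omega
    have e1 := Nat.mul_le_mul_right (M + 1) hlt'
    have e2 := hidx j
    have e3 : ord j < (sk V j.1 + 1) * (M + 1) := by
      simp only [ord]
      rw [Nat.add_mul, Nat.one_mul]
      omega
    have e4 : sk V i.1 * (M + 1) ≤ ord i := Nat.le_add_right _ _
    omega
  have hcnt : ∀ j : {a // a ∈ E}, 3 * (univ.filter fun i => ord i ≤ ord j).card ≤ 2 ^ sk V j.1 := by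
    intro j
    have e1 : (univ.filter fun i => ord i ≤ ord j).card ≤
        (E.filter fun i => sk V i ≤ sk V j.1).card := by
      refine Finset.card_le_card_of_injOn (fun i => i.1) (fun i hi' => ?_)
        (fun i _ j _ hij => Subtype.ext hij)
      exact Finset.mem_coe.2 (Finset.mem_filter.2 ⟨i.2, hkey i _ (Finset.mem_filter.1 hi').2⟩)
    have e2 := h6 V E (sk V j.1) (hx j.1).1
    omega
  obtain ⟨P, hP⟩ := h1 {a // a ∈ E} (fun i => Cp V i.1) ord
    (fun b i P => ∏ u, mv b (qs (hm V i.1)) (P u)) (fun b i P => Says (qs (hm V i.1)) b P)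
    (fun P i => decide (i.1.2 ∈ (V i.1.1).lang (O P))) (fun _ => True)
    (fun i => ep V i.1) (fun i => ta V i.1) hord
    (fun b i c => Finset.prod_nonneg fun u _ => (h10 b _).1 _)
    (fun b i => by
      have h0 : ∑ c : (Fin (2 * (hm V i.1).length) → Bool) → VV (qs (hm V i.1)) → Bool,
          ∏ u, mv b (qs (hm V i.1)) (c u) =
            ∏ _u : Fin (2 * (hm V i.1).length) → Bool, ∑ p', mv b (qs (hm V i.1)) p' := by
        rw [Finset.prod_univ_sum, Fintype.piFinset_univ]
      rw [h0, Finset.prod_congr rfl fun u _ => (h10 b _).2.1, Finset.prod_const_one])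
    (fun i => ep_nonneg V i.1) (fun i => ta_nonneg V i.1)
    (by
      intro j _ κ P
      let J := univ.filter fun i => ord i ≤ ord j
      have hJ : ∀ i ∈ J, sk V i.1 ≤ sk V j.1 := fun i hi => hkey i j (Finset.mem_filter.1 hi).2
      let B : ((Fin (2 * (hm V j.1).length) → Bool) → VV (qs (hm V j.1)) → Bool) → Bool := fun c =>
        decide (∀ i ∈ J, decide (i.1.2 ∈ (V i.1.1).lang (O (Function.update P j c))) = κ i)
      have hB : ∀ P' u, Cl (VV (qs (hm V j.1))) (2 ^ 2 ^ sk V j.1) (2 * sk V j.1 + 2)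
          fun c => B (Function.update P' u c) := by
        intro P' u
        have hlib : Lib fun c : VV (qs (hm V j.1)) → Bool =>
            O (Function.update P j (Function.update P' u c)) := by
          have h9 := hO.upd (Function.update P j P') j u
          rw [Function.update_self] at h9
          simpa only [Function.update_idem] using h9
        have hJc : J.card ≤ 2 ^ 2 ^ sk V j.1 := by
          have e1 := hcnt j
          have e3 : (2 : ℕ) ^ sk V j.1 ≤ 2 ^ 2 ^ sk V j.1 :=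
            Nat.pow_le_pow_right (by norm_num) (Nat.lt_two_pow_self).le
          have e4 : J.card = (univ.filter fun i => ord i ≤ ord j).card := rfl
          omega
        have := h5 (VV (qs (hm V j.1))) _ (2 ^ 2 ^ sk V j.1) (2 * sk V j.1) J
          (fun i c => decide (i.1.2 ∈ (V i.1.1).lang (O (Function.update P j
            (Function.update P' u c))))) κ
          (Nat.pow_le_pow_right (by norm_num) (Nat.one_le_two_pow) : 2 ^ 1 ≤ 2 ^ 2 ^ _) hJc
          fun i hi => h4 V _ prog _ _ i.1 hprog (fun y => hO.self _) hlib (hJ i hi)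
        exact Eq.mpr (congrArg (Cl _ _ _) (funext fun c => decide_eq_decide.2 Iff.rfl)) this
      have hcore := ast_core h2 h3 h8 h11 (sk V j.1) (hm V j.1).length (qs (hm V j.1)) rfl
        (hx j.1).1 (hx j.1).2.1 (hx j.1).2.2 (κ j) B hB
      have hif : ∀ c, (if B c = true then (1 : ℝ) else 0) = if ∀ i, ord i ≤ ord j →
          decide (i.1.2 ∈ (V i.1.1).lang (O (Function.update P j c))) = κ i then 1 else 0 := by
        intro c
        by_cases hh : ∀ i ∈ J, decide (i.1.2 ∈ (V i.1.1).lang (O (Function.update P j c))) = κ i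
        · rw [if_pos (decide_eq_true hh), if_pos]
          intro i hi
          exact hh i (Finset.mem_filter.2 ⟨mem_univ _, hi⟩)
        · rw [if_neg (fun e => hh (of_decide_eq_true e)), if_neg]
          intro e
          exact hh fun i hi => e i (Finset.mem_filter.1 hi).2
      simp only [hif] at hcore
      exact hcore)
    (by
      intro j hj
      exact absurd trivial hj)
    (by
      have hterm : ∀ i : {a // a ∈ E}, ep V i.1 +
          8 ^ (univ.filter fun i' => ord i' ≤ ord i).card * ta V i.1 ≤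
          (1 / 4 : ℝ) ^ (hm V i.1).length / 4 := by
        intro i
        have hn := h8 (sk V i.1) (hm V i.1).length (hx i.1).1 (hx i.1).2.1 (hx i.1).2.2
        have h8' : (8 : ℝ) ^ (univ.filter fun i' => ord i' ≤ ord i).card ≤ 2 ^ 2 ^ sk V i.1 := by
          have : (8 : ℝ) = 2 ^ 3 := by norm_num
          rw [this, ← pow_mul]
          exact pow_le_pow_right₀ (by norm_num) (hcnt i)
        have hc := mul_le_mul_of_nonneg_right h8' (ta_nonneg V i.1)
        have hd : (2 : ℝ) ^ 2 ^ sk V i.1 * ta V i.1 ≤ (1 / 4) ^ (hm V i.1).length / 8 := hn.2.2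
        have he : ep V i.1 ≤ (1 / 4) ^ (hm V i.1).length / 8 := hn.2.1
        linarith
      have hgeo : ∑ i ∈ E, (1 / 4 : ℝ) ^ (hm V i).length ≤ 2 := by
        have := h7 V (E.map ⟨Sum.inl, Sum.inl_injective⟩)
        rw [Finset.sum_map] at this
        exact this
      calc ∑ i : {a // a ∈ E}, (ep V i.1 +
            8 ^ (univ.filter fun i' => ord i' ≤ ord i).card * ta V i.1)
          ≤ ∑ i : {a // a ∈ E}, (1 / 4 : ℝ) ^ (hm V i.1).length / 4 :=
            Finset.sum_le_sum fun i _ => hterm i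
        _ = (∑ i : {a // a ∈ E}, (1 / 4 : ℝ) ^ (hm V i.1).length) / 4 := by rw [Finset.sum_div]
        _ = (∑ i ∈ E, (1 / 4 : ℝ) ^ (hm V i).length) / 4 := by
              rw [Finset.sum_coe_sort E (fun i => (1 / 4 : ℝ) ^ (hm V i).length)]
        _ ≤ 2 / 4 := div_le_div_of_nonneg_right hgeo (by norm_num)
        _ < 1 := by norm_num)
  refine ⟨O P, hO.self P, fun p hp => ?_⟩
  have hPi := hP ⟨p, hp⟩
  have hfun : (fun u : Fin (2 * (hm V p).length) → Bool => cpx (O P) (hm V p) (List.ofFn u)) =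
      P ⟨p, hp⟩ := by
    funext u
    exact hO.blk P ⟨p, hp⟩ u
  unfold fine
  rw [hfun]
  exact hPi

end Pool.Agent.H70.EP
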