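import Pool.Agent.H70.EI.Targets

/-!
# Alternating exponential time in BQP and P = NP: definitions for the proof
-/

set_option autoImplicit false

namespace Pool.Agent.H70.EP

open Finset Pool.Agent.H6.NB Pool.Agent.H70.OQ Pool.Agent.H70.EH Pool.Agent.H70.EI

/-- The strings `0 s` of the oracle `O` contain the answers of the universal NP machine. -/
def Self (prog : List Bool → List Bool → Pool.Agent.H6.NB.DT) (O : List Bool → Bool) : Prop :=
  ∀ s, O (false :: s) = true ↔ acc prog s O

/-- Apart from the strings `0 s` the oracle family `O y` consists of constants and variables. -/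
def Lib {X : Type} (O : (X → Bool) → List Bool → Bool) : Prop :=
  ∀ w, (∀ s, w ≠ false :: s) → (∃ b, ∀ y, O y w = b) ∨ ∃ v, ∀ y, O y w = y v

/-- The copies of an instance. -/
abbrev Cp (V : ℕ → ATM) (p : ℕ × List Bool) : Type :=
  (Fin (2 * (hm V p).length) → Bool) → VV (qs (hm V p)) → Bool

/-- The size parameter. -/
def sk (V : ℕ → ATM) (p : ℕ × List Bool) : ℕ := scale (V p.1) p.1 p.2

/-- `O P` is the oracle built from the coordinates `P i`, `i ∈ E`. -/
structure IsP (V : ℕ → ATM) (prog : List Bool → List Bool → Pool.Agent.H6.NB.DT)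
    (E : Finset (ℕ × List Bool)) (O : (∀ i : {a // a ∈ E}, Cp V i.1) → List Bool → Bool) : Prop where
  blk : ∀ P (i : {a // a ∈ E}) u, cpx (O P) (hm V i.1) (List.ofFn u) = P i u
  self : ∀ P, Self prog (O P)
  upd : ∀ P (i : {a // a ∈ E}) u, Lib fun c => O (Function.update P i (Function.update (P i) u c))

/-- The bound for the second level, relative to the mean, for instances of scale `r`. -/
noncomputable def Lam (r : ℕ) : ℝ := (128 * 4 ^ r) ^ (2 * (2 * r + 2)) * (4 ^ r) ^ 2

/-- The absolute error of the second level for instances of scale `r`, for `q` qubits. -/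
noncomputable def Tau (r q : ℕ) : ℝ :=
  (128 * 4 ^ r) ^ (2 * (2 * r + 2)) * ((2 * 2 ^ q) ^ 2 * (2 ^ 2 ^ r + 1) ^ (2 * r + 2) / 2 ^ 4 ^ r)

open Classical in
/-- The oracle is good for the instance. -/
def fine (V : ℕ → ATM) (O : List Bool → Bool) (p : ℕ × List Bool) : Prop :=
  Says (qs (hm V p)) (decide (p.2 ∈ (V p.1).lang O))
    fun u : Fin (2 * (hm V p).length) → Bool => cpx O (hm V p) (List.ofFn u)

end Pool.Agent.H70.EP
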