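import Pool.Agent.H70.EP.Defs

/-!
# Alternating exponential time in BQP and P = NP: module targets
-/

set_option autoImplicit false

namespace Pool.Agent.H70.EP

open Finset Pool.Agent.H6.NB Pool.Agent.H70.OQ Pool.Agent.H70.EH Pool.Agent.H70.EI

/-- BL3: the oracle with the answers of the universal NP machine. -/
def T_BL3 : Prop := ∀ prog : List Bool → List Bool → Pool.Agent.H6.NB.DT, Small prog →
  ∀ σ : List Bool → Bool, ∃ O, Self prog O ∧ ∀ w, (∀ s, w ≠ false :: s) → O w = σ w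

/-- IS3: the oracle exists. -/
def T_IS3 : Prop := ∀ (V : ℕ → ATM) (prog : List Bool → List Bool → Pool.Agent.H6.NB.DT), Small prog →
  ∀ E : Finset (ℕ × List Bool), ∃ O, IsP V prog E O

/-- DT3: a decision tree over circuits. -/
def T_DT3 : Prop := ∀ (X : Type) (S t m d : ℕ) (T : Pool.Agent.H6.NB.DT)
  (O : (X → Bool) → List Bool → Bool), 2 ≤ S → t ≤ S → 2 ^ t ≤ S → T.depth ≤ t → T.Short m →
  (∀ w, w.length ≤ m → Cl X S d fun y => O y w) → Cl X S (d + 2) fun y => T.eval (O y)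

/-- KC3: the strings of the oracle as functions of the variables. -/
def T_KC3 : Prop := ∀ (X : Type) (prog : List Bool → List Bool → Pool.Agent.H6.NB.DT)
  (O : (X → Bool) → List Bool → Bool) (r : ℕ), Small prog → (∀ y, Self prog (O y)) → Lib O →
  20 ≤ r → ∀ w, w.length ≤ 2 ^ r → Cl X (2 ^ 2 ^ r) (r - 5) fun y => O y w

open Classical in
/-- AC3: the answers as functions of the variables. -/
def T_AC3 : Prop := ∀ (V : ℕ → ATM) (X : Type) (prog : List Bool → List Bool → Pool.Agent.H6.NB.DT)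
  (O : (X → Bool) → List Bool → Bool) (r : ℕ) (p : ℕ × List Bool), Small prog →
  (∀ y, Self prog (O y)) → Lib O → sk V p ≤ r →
  Cl X (2 ^ 2 ^ r) (2 * r) fun y => decide (p.2 ∈ (V p.1).lang (O y))

open Classical in
/-- CN3: the number of instances of bounded size. -/
def T_CN3 : Prop := ∀ (V : ℕ → ATM) (E : Finset (ℕ × List Bool)) (r : ℕ),
  20 ≤ r → 3 * (E.filter fun p => sk V p ≤ r).card ≤ 2 ^ r

/-- NU3: estimates for the error terms. -/
def T_NU3 : Prop := ∀ r l : ℕ, 20 ≤ r → 16 * r ^ 3 ≤ l → l ≤ 16 * (r + 1) ^ 3 →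
  Lam r ≤ √(2 ^ (10 * l + 100)) ∧
  (2 : ℝ) ^ (2 * l) * (Lam r / √(2 ^ (10 * l + 100))) ≤ (1 / 4) ^ l / 8 ∧
  (2 : ℝ) ^ 2 ^ r * ((2 : ℝ) ^ (2 * l) * (Tau r (10 * l + 100) + 1 / 2 ^ 2 ^ (10 * l + 100 - 2)) +
    Real.exp (-((2 : ℝ) ^ (2 * l) * eps2 (10 * l + 100) ^ 2 / 64))) ≤ (1 / 4) ^ l / 8

/-- EX3: finitely many instances. -/
def T_EX3 : Prop := ∀ (V : ℕ → ATM) (prog : List Bool → List Bool → Pool.Agent.H6.NB.DT), Small prog →
  ∀ E : Finset (ℕ × List Bool), ∃ O, Self prog O ∧ ∀ p ∈ E, fine V O p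

/-- DC3: the conditions depend on finitely many strings. -/
def T_DC3 : Prop := ∀ (V : ℕ → ATM) (prog : List Bool → List Bool → Pool.Agent.H6.NB.DT), Small prog →
  (∀ p, ∃ l, ∀ O O' : List Bool → Bool, (∀ w, w.length ≤ l → O w = O' w) →
    (fine V O p ↔ fine V O' p)) ∧
  ∀ s, ∃ l, ∀ O O' : List Bool → Bool, (∀ w, w.length ≤ l → O w = O' w) →
    ((O (false :: s) = true ↔ acc prog s O) ↔ (O' (false :: s) = true ↔ acc prog s O'))

/-- FI3: the theorem. -/
def T_FI3 : Prop := ∀ (V : ℕ → ATM) (U : ℕ → Verifier), ∃ O : List Bool → Bool,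
  (∀ i x, (x ∈ (V i).lang O → 2 / 3 ≤ yes O (home (V i) i x)) ∧
    (x ∉ (V i).lang O → yes O (home (V i) i x) ≤ 1 / 3)) ∧
  ∀ i x, (x ∈ (U i).lang O ↔ O (false :: inst (U i).c i x) = true)

end Pool.Agent.H70.EP
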